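import Mathlib

/-!
# Finite J-height is not inherited by bi-ideals

We construct a semigroup with exactly three J-classes (a chain) and a bi-ideal of it whose
J-height is infinite.
-/

namespace Pool.Agent.Results.MP_92d133_al.NotInherited

/-- Green's preorder: `a ≤ b` in the `J`-order of the semigroup `S` when `a` lies in `S¹ b S¹`
(equivalently `S¹ a S¹ ⊆ S¹ b S¹`), where `S¹` is `S` with an identity adjoined. -/
def JLe {S : Type*} [Semigroup S] (a b : S) : Prop :=
  ∃ x y : WithOne S, (a : WithOne S) = x * (b : WithOne S) * y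

/-- Strict inequality of `J`-classes. -/
def JLt {S : Type*} [Semigroup S] (a b : S) : Prop :=
  JLe a b ∧ ¬ JLe b a

/-- The `J`-height of `S` is at most `n`: every chain of (pairwise distinct) `J`-classes,
given by one representative in each class, has at most `n` members. -/
def JHeightLe (S : Type*) [Semigroup S] (n : ℕ) : Prop :=
  ∀ C : Finset S, (∀ a ∈ C, ∀ b ∈ C, a ≠ b → JLt a b ∨ JLt b a) → C.card ≤ n

/-- The semigroup `S` has finite `J`-height. -/
def FiniteJHeight (S : Type*) [Semigroup S] : Prop :=
  ∃ n : ℕ, JHeightLe S n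

/-- A bi-ideal: a nonempty subsemigroup `B` with `B S B ⊆ B`. -/
def IsBiIdeal {S : Type*} [Semigroup S] (B : Subsemigroup S) : Prop :=
  (B : Set S).Nonempty ∧ ∀ b ∈ B, ∀ s : S, ∀ c ∈ B, b * s * c ∈ B

/-- The Bruck extension of the additive monoid of natural numbers. -/
@[ext] structure V where
  /-- first coordinate -/
  m : ℕ
  /-- middle coordinate -/
  a : ℕ
  /-- last coordinate -/
  n : ℕ
  deriving DecidableEq

instance : Mul V where
  mul x y :=
    if x.n < y.m then ⟨x.m + (y.m - x.n), y.a, y.n⟩
    else if x.n = y.m then ⟨x.m, x.a + y.a, y.n⟩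
    else ⟨x.m, x.a, y.n + (x.n - y.m)⟩

theorem V.mul_def (x y : V) : x * y =
    if x.n < y.m then ⟨x.m + (y.m - x.n), y.a, y.n⟩
    else if x.n = y.m then ⟨x.m, x.a + y.a, y.n⟩
    else ⟨x.m, x.a, y.n + (x.n - y.m)⟩ := rfl

theorem V.mul_assoc' (x y z : V) : x * y * z = x * (y * z) := by
  obtain ⟨x1, x2, x3⟩ := x
  obtain ⟨y1, y2, y3⟩ := y
  obtain ⟨z1, z2, z3⟩ := z
  simp only [V.mul_def]
  split_ifs <;> simp_all <;> omega

instance : Semigroup V where
  mul_assoc := V.mul_assoc'

theorem V.m_le (x y : V) : x.m ≤ (x * y).m := by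
  rw [V.mul_def]
  split_ifs <;> simp

theorem V.simple (x y : V) : ∃ u v : V, u * x * v = y := by
  refine ⟨⟨y.m, y.a, x.m + 1⟩, ⟨x.n + 1, 0, y.n⟩, ?_⟩
  obtain ⟨x1, x2, x3⟩ := x
  obtain ⟨y1, y2, y3⟩ := y
  simp only [V.mul_def]
  have h1 : ¬ (x1 + 1 < x1) := by omega
  have h2 : ¬ (x1 + 1 = x1) := by omega
  simp [h1]

/-- The trivial extension of `V` by `V` as a bi-act, with a zero: `none` is the zero,
`some (x, false)` is the element `x` of `V` and `some (x, true)` its copy in the square-zero
part. -/
structure E where
  /-- the underlying datum -/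
  val : Option (V × Bool)

theorem E.ext' {x y : E} (h : x.val = y.val) : x = y := by
  cases x; cases y; simp_all

instance : Mul E where
  mul x y :=
    ⟨match x.val, y.val with
      | some (p, s), some (q, t) => if s && t then none else some (p * q, s || t)
      | _, _ => none⟩

/-- element of `E` -/
def el (x : V) (s : Bool) : E := ⟨some (x, s)⟩

/-- the zero of `E` -/
def zr : E := ⟨none⟩

theorem el_ff (x y : V) : el x false * el y false = el (x * y) false := rfl
theorem el_ft (x y : V) : el x false * el y true = el (x * y) true := rfl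
theorem el_tf (x y : V) : el x true * el y false = el (x * y) true := rfl
theorem el_tt (x y : V) : el x true * el y true = zr := rfl
theorem el_zr (x : V) (s : Bool) : el x s * zr = zr := rfl
theorem zr_mk (x : V) (s : Bool) : zr * el x s = zr := rfl
theorem zr_zr : zr * zr = zr := rfl

theorem E.cases' (x : E) : x = zr ∨ ∃ p s, x = el p s := by
  obtain ⟨v⟩ := x
  cases v with
  | none => left; rfl
  | some ps => right; exact ⟨ps.1, ps.2, rfl⟩

theorem el_inj {x y : V} {s t : Bool} (h : el x s = el y t) : x = y ∧ s = t := by
  have := congrArg E.val h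
  simp only [el, Option.some.injEq, Prod.mk.injEq] at this
  exact this

theorem el_ne_zr (x : V) (s : Bool) : el x s ≠ zr := by
  intro h
  have := congrArg E.val h
  simp [el, zr] at this

instance : Semigroup E where
  mul_assoc x y z := by
    rcases E.cases' x with rfl | ⟨p, s, rfl⟩ <;> rcases E.cases' y with rfl | ⟨q, t, rfl⟩ <;>
      rcases E.cases' z with rfl | ⟨r, u, rfl⟩
    all_goals try cases s
    all_goals try cases t
    all_goals try cases u
    all_goals simp only [el_ff, el_ft, el_tf, el_tt, el_zr, zr_mk, zr_zr, V.mul_assoc']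

theorem jle_same (x y : V) (s : Bool) : JLe (el y s) (el x s) := by
  obtain ⟨u, v, h⟩ := V.simple x y
  refine ⟨(el u false : E), (el v false : E), ?_⟩
  rw [← WithOne.coe_mul, ← WithOne.coe_mul]
  cases s
  · rw [el_ff, el_ff, h]
  · rw [el_ft, el_tf, h]

theorem height_le : JHeightLe E 3 := by
  intro C hC
  classical
  let f : E → Option Bool := fun x => x.val.map Prod.snd
  have hinj : Set.InjOn f (C : Set E) := by
    intro x hx y hy hxy
    by_contra hne
    have hc := hC x hx y hy hne
    rcases E.cases' x with rfl | ⟨p, s, rfl⟩ <;> rcases E.cases' y with rfl | ⟨q, t, rfl⟩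
    · exact hne rfl
    · simp [f, zr, el] at hxy
    · simp [f, zr, el] at hxy
    · simp only [f, el, Option.map_some, Option.some.injEq] at hxy
      subst hxy
      rcases hc with h | h
      · exact h.2 (jle_same _ _ _)
      · exact h.2 (jle_same _ _ _)
  have h := Finset.card_le_card_of_injOn (t := (Finset.univ : Finset (Option Bool))) f
    (fun _ _ => Finset.mem_univ _) hinj
  simpa using h

/-- The bi-ideal: the zero, the whole square-zero part, and the elements of `V` with positive
first coordinate. -/
def B : Subsemigroup E where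
  carrier := {x | ∀ p : V, x = el p false → 1 ≤ p.m}
  mul_mem' := by
    intro x y hx hy p hp
    rcases E.cases' x with rfl | ⟨q, s, rfl⟩ <;> rcases E.cases' y with rfl | ⟨r, t, rfl⟩
    · rw [zr_zr] at hp; exact absurd hp.symm (el_ne_zr _ _)
    · rw [zr_mk] at hp; exact absurd hp.symm (el_ne_zr _ _)
    · rw [el_zr] at hp; exact absurd hp.symm (el_ne_zr _ _)
    · cases s
      · cases t
        · rw [el_ff] at hp
          obtain ⟨hp, -⟩ := el_inj hp
          subst hp
          exact le_trans (hx q rfl) (V.m_le _ _)
        · rw [el_ft] at hp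
          exact absurd (el_inj hp).2 (by simp)
      · cases t
        · rw [el_tf] at hp
          exact absurd (el_inj hp).2 (by simp)
        · rw [el_tt] at hp; exact absurd hp.symm (el_ne_zr _ _)

theorem mem_B {x : E} : x ∈ B ↔ ∀ p : V, x = el p false → 1 ≤ p.m := Iff.rfl

theorem el_true_mem (x : V) : el x true ∈ B := by
  intro p hp
  exact absurd (el_inj hp).2 (by simp)

theorem el_false_mem {x : V} (h : 1 ≤ x.m) : el x false ∈ B := by
  intro p hp
  rw [← (el_inj hp).1]; exact h

theorem isBiIdeal_B : IsBiIdeal B := by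
  refine ⟨⟨el ⟨0, 0, 0⟩ true, el_true_mem _⟩, ?_⟩
  intro b hb s c _ p hp
  rcases E.cases' b with rfl | ⟨q, u, rfl⟩ <;> rcases E.cases' s with rfl | ⟨r, t, rfl⟩ <;>
    rcases E.cases' c with rfl | ⟨w, v, rfl⟩
  all_goals try cases u
  all_goals try cases t
  all_goals try cases v
  all_goals simp only [el_ff, el_ft, el_tf, el_tt, el_zr, zr_mk, zr_zr] at hp
  all_goals first
    | exact absurd hp.symm (el_ne_zr _ _)
    | (cases (el_inj hp).2; done)
    | (obtain ⟨hp, -⟩ := el_inj hp
       subst hp
       exact le_trans (hb q rfl) (le_trans (V.m_le _ _) (V.m_le _ _)))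

theorem one_or_coe {S : Type*} (y : WithOne S) : y = 1 ∨ ∃ z : S, y = (z : WithOne S) :=
  WithOne.cases_on y (Or.inl rfl) (fun z => Or.inr ⟨z, rfl⟩)

/-- The infinite chain in the bi-ideal. -/
def f (i : ℕ) : B := ⟨el ⟨0, i, 1⟩ true, el_true_mem _⟩

theorem f_le {i j : ℕ} (h : i ≤ j) : JLe (f j) (f i) := by
  refine ⟨1, ((⟨el ⟨1, j - i, 1⟩ false, el_false_mem (by simp)⟩ : B) : WithOne B), ?_⟩
  rw [one_mul, ← WithOne.coe_mul]
  congr 1
  apply Subtype.ext
  change el ⟨0, j, 1⟩ true = el ⟨0, i, 1⟩ true * el ⟨1, j - i, 1⟩ false
  rw [el_tf]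
  congr 1
  simp [V.mul_def]
  omega

theorem f_not_le {i j : ℕ} (h : i < j) : ¬ JLe (f i) (f j) := by
  rintro ⟨x, y, hxy⟩
  -- the right factor alone
  have key : ∀ (z : V) (s : Bool) (hz : el z s ∈ B),
      ∀ y : WithOne B, ((f i : B) : WithOne B) = ((⟨el z s, hz⟩ : B) : WithOne B) * y →
        z.m = 0 ∧ s = true := by
    intro z s hz y hy
    rcases one_or_coe y with rfl | ⟨y, rfl⟩
    · rw [mul_one, WithOne.coe_inj] at hy
      have := congrArg Subtype.val hy
      obtain ⟨h1, h2⟩ := el_inj this
      subst h1; subst h2; simp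
    · rw [← WithOne.coe_mul, WithOne.coe_inj] at hy
      have hy := congrArg Subtype.val hy
      change el ⟨0, i, 1⟩ true = el z s * (y : E) at hy
      rcases E.cases' (y : E) with h0 | ⟨q, t, h0⟩
      · rw [h0, el_zr] at hy; exact absurd hy (el_ne_zr _ _)
      · rw [h0] at hy
        cases s
        · exfalso
          have hz1 := hz z rfl
          cases t
          · rw [el_ff] at hy; exact absurd (el_inj hy).2 (by simp)
          · rw [el_ft] at hy
            have h1 := congrArg V.m (el_inj hy).1
            have h2 := V.m_le z q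
            simp only at h1
            omega
        · cases t
          · rw [el_tf] at hy
            have h1 := congrArg V.m (el_inj hy).1
            have h2 := V.m_le z q
            simp only at h1
            exact ⟨by omega, rfl⟩
          · rw [el_tt] at hy; exact absurd hy (el_ne_zr _ _)
  rcases one_or_coe x with rfl | ⟨x, rfl⟩
  · rw [one_mul] at hxy
    rcases one_or_coe y with rfl | ⟨y, rfl⟩
    · rw [mul_one, WithOne.coe_inj] at hxy
      have := congrArg Subtype.val hxy
      have := congrArg V.a (el_inj this).1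
      simp only at this
      omega
    · rw [← WithOne.coe_mul, WithOne.coe_inj] at hxy
      have hy := congrArg Subtype.val hxy
      change el ⟨0, i, 1⟩ true = el ⟨0, j, 1⟩ true * (y : E) at hy
      rcases E.cases' (y : E) with h0 | ⟨q, t, h0⟩
      · rw [h0, el_zr] at hy; exact absurd hy (el_ne_zr _ _)
      · have hyB := y.2
        rw [h0] at hy hyB
        cases t
        · rw [el_tf] at hy
          have hq := hyB q rfl
          have h1 := (el_inj hy).1
          rw [V.mul_def] at h1
          split_ifs at h1 with h2 h3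
          · have := congrArg V.m h1
            simp only at this h2
            omega
          · have := congrArg V.a h1
            simp only at this
            omega
          · simp only at h2 h3
            omega
        · rw [el_tt] at hy; exact absurd hy (el_ne_zr _ _)
  · rw [← WithOne.coe_mul] at hxy
    rcases E.cases' (x : E) with h0 | ⟨q, t, h0⟩
    · have h1 : x * f j = ⟨zr, by intro p hp; exact absurd hp.symm (el_ne_zr _ _)⟩ := by
        apply Subtype.ext
        change (x : E) * el ⟨0, j, 1⟩ true = zr
        rw [h0, zr_mk]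
      rw [h1] at hxy
      rcases one_or_coe y with rfl | ⟨y, rfl⟩
      · rw [mul_one, WithOne.coe_inj] at hxy
        exact absurd (congrArg Subtype.val hxy) (el_ne_zr _ _)
      · rw [← WithOne.coe_mul, WithOne.coe_inj] at hxy
        have hy := congrArg Subtype.val hxy
        change el ⟨0, i, 1⟩ true = zr * (y : E) at hy
        rcases E.cases' (y : E) with h2 | ⟨r, u, h2⟩
        · rw [h2, zr_zr] at hy; exact absurd hy (el_ne_zr _ _)
        · rw [h2, zr_mk] at hy; exact absurd hy (el_ne_zr _ _)
    · have hxB := x.2
      rw [h0] at hxB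
      cases t
      · have hq := hxB q rfl
        have h1 : x * f j = ⟨el (q * ⟨0, j, 1⟩) true, el_true_mem _⟩ := by
          apply Subtype.ext
          change (x : E) * el ⟨0, j, 1⟩ true = _
          rw [h0, el_ft]
        rw [h1] at hxy
        have := (key _ _ _ y hxy).1
        have h3 := V.m_le q ⟨0, j, 1⟩
        omega
      · have h1 : x * f j = ⟨zr, by intro p hp; exact absurd hp.symm (el_ne_zr _ _)⟩ := by
          apply Subtype.ext
          change (x : E) * el ⟨0, j, 1⟩ true = zr
          rw [h0, el_tt]
        rw [h1] at hxy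
        rcases one_or_coe y with rfl | ⟨y, rfl⟩
        · rw [mul_one, WithOne.coe_inj] at hxy
          exact absurd (congrArg Subtype.val hxy) (el_ne_zr _ _)
        · rw [← WithOne.coe_mul, WithOne.coe_inj] at hxy
          have hy := congrArg Subtype.val hxy
          change el ⟨0, i, 1⟩ true = zr * (y : E) at hy
          rcases E.cases' (y : E) with h2 | ⟨r, u, h2⟩
          · rw [h2, zr_zr] at hy; exact absurd hy (el_ne_zr _ _)
          · rw [h2, zr_mk] at hy; exact absurd hy (el_ne_zr _ _)

theorem f_injective : Function.Injective f := by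
  intro i j h
  have := congrArg Subtype.val h
  have := congrArg V.a (el_inj this).1
  simpa using this

/-- There are a semigroup `S` whose `J`-height is at most `3` and a bi-ideal `B` of `S` whose
`J`-height, computed in the semigroup `B` itself, is infinite. Hence finite `J`-height is not
inherited by bi-ideals. -/
theorem result :
    ∃ (S : Type) (_ : Semigroup S) (B : Subsemigroup S),
      JHeightLe S 3 ∧ IsBiIdeal B ∧ ¬ FiniteJHeight B := by
  refine ⟨E, inferInstance, B, height_le, isBiIdeal_B, ?_⟩
  rintro ⟨n, hn⟩
  classical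
  have h := hn ((Finset.range (n + 1)).image f) (by
    intro a ha b hb hab
    simp only [Finset.mem_image, Finset.mem_range] at ha hb
    obtain ⟨i, -, rfl⟩ := ha
    obtain ⟨j, -, rfl⟩ := hb
    have hij : i ≠ j := fun h => hab (by rw [h])
    rcases lt_or_gt_of_ne hij with h | h
    · right; exact ⟨f_le h.le, f_not_le h⟩
    · left; exact ⟨f_le h.le, f_not_le h⟩)
  rw [Finset.card_image_of_injective _ f_injective, Finset.card_range] at h
  omega

end Pool.Agent.Results.MP_92d133_al.NotInherited
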